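import Pool.Agent.TH654.RB.QC
import Pool.Agent.TH678.PC.Adv3

/-!
# Quantum proofs are classical proofs for every oracle near a suitable one

`Close g O A` says that for all large `n` the oracles `O` and `A` differ on at most `g n` strings of
length at most `n`. We construct an oracle `O` such that for EVERY oracle `A` which differs from `O`
on at most polynomially many strings (more precisely: `Close g O A` for some `g` such that, for
some `c` and all large `n`, there is `m ≥ n` with `g m ≤ n ^ c`),

* quantum proofs with completeness `c` and soundness `s`, `0 ≤ s < c ≤ 1`, checked by verifiers
  which ask arbitrarily many questions in superposition, have exactly the power of `NP` relative to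
  `A`; this holds for all witness states (`QMA`), for basis states (`QCMA`), for products of `k`
  states (`QMA(k)`) and for all the sets of allowed witness states in any given sequence, with the
  same `O`;
* `BQP = P` relative to `A`.

So a polynomial number of changes of `O`, however they are chosen, cannot separate `QMA` from
`QCMA` or even from `NP`. (`PolynomiallyManyChanges` for `MP_2eaaa0_lc` shows that, from every
oracle, every effectively superpolynomial number of changes suffices to put `BQP` outside the
polynomial hierarchy.)

Idea: `O` answers, with a code, all questions about the behaviour of a verifier on `O` changed in a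
given list `l` of strings. A classical proof for `A` consists of the classical part of the quantum
proof and of the list `l` of all changes which matter; the verifier checks that `l` consists of
changes, that all strings asked with a large weight on the best witness for the list `l` are no
changes outside of `l`, and that the best witness for the list `l` is accepted. By the hybrid
argument the same witness would also be accepted for the oracle `A`.
-/

set_option autoImplicit false

namespace Pool.Agent.Results.MP_36f78e_lc.PolynomiallyManyChanges

open Pool.Agent.NPC Pool.Agent.H620R2.Gauge
open Pool.Agent.TH654.RB (IsQMA)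
open Pool.Agent.W938.QX (IsNPP)
open Pool.Agent.W900.CH (Close)
open Filter

/-- For every sequence `W 0, W 1, ...` of families of allowed witness states there is an oracle `O`
such that relative to all oracles `A` which differ from `O` on polynomially many strings, quantum
proofs (with witness states from `W i`) have exactly the power of `NP`, and `BQP = P`. -/
theorem result (W : ℕ → ∀ b : ℕ, Set ((Fin b → Bool) → ℂ))
    (hW : ∀ i b, ∃ ψ ∈ W i b, ∑ t, ‖ψ t‖ ^ 2 = 1) :
    ∃ O : Oracle, ∀ g : ℕ → ℝ,
      (∃ k : ℕ, ∀ᶠ n : ℕ in atTop, ∃ m ≥ n, g m ≤ (n : ℝ) ^ k) →
      ∀ A : Oracle, Close g O A →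
        (∀ (i : ℕ) (c s : ℝ) (Y N : Set (List Bool)), 0 ≤ s → s < c → c ≤ 1 →
          (IsQMA (W i) c s A Y N ↔ IsNPP A Y N)) ∧
        ∀ L, IsBQP A L → IsP A L := by
  obtain ⟨O, hO⟩ := Pool.Agent.TH654.RB.exists_robust3 W
  refine ⟨O, fun g hg A hA => ?_⟩
  obtain ⟨h1, h2⟩ := hO A (Pool.Agent.TH678.PC.dist_poly hg hA)
  exact ⟨fun i c s Y N hs hsc hc => ⟨h1 i c s Y N hsc,
    Pool.Agent.TH654.RB.conv (W i) (hW i) c s hc hs A Y N⟩, h2⟩

end Pool.Agent.Results.MP_36f78e_lc.PolynomiallyManyChanges
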