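import Mathlib
import Pool.Agent.TH269.SV.Main

/-!
# Verifiers which are symmetric in their witness qubits: classical witnesses suffice

A QMA verifier on a fixed input is its acceptance operator `E`, `0 ≤ E ≤ 1` (`IsEffect`), and it
accepts the unit state `φ` with probability `accept E φ = ⟨φ|E|φ⟩` (operator form, as in
`MonotoneWitnesses`). Here the witness register consists of `n` qubits of `c` types, `τ i` is the
type of the qubit `i`, and of an additional register of dimension `D`; the verifier is *symmetric*
(`Symm τ E`) if `E` is invariant under the exchange of any two qubits of the same type. For instance
`c = 1`: a verifier whose test does not depend on the order of the `n` witness qubits. Let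
`M = D ∏ (n_t + 1)`, `n_t` the number of qubits of type `t` (`dimT D τ`).

* **Optimal witnesses.** For every symmetric verifier the largest acceptance probability (over all
  states) is attained at a state `form τ μ g`: the qubits matched by `μ` (a matching of qubits of the
  same type) are in singlet states, and the remaining amplitude `g` depends only on the value of the
  additional register and on the numbers of ones at the unmatched qubits of each type. So the state
  is described by the matching and at most `M` complex numbers (singlets and a superposition of
  products of Dicke states, which have small circuits).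
* **Classical witnesses.** Let `0 < ε < 1` and `L ≥ 3 M log₂ (7 M / ε)`. There are states `F y` of
  this form, `y` a string of `L` bits, such that for every symmetric verifier some `F y` is accepted
  with probability at least `1 - ε` times the maximum over all states.
* **They cannot be shorter** (up to the logarithm). For every `L` and all states `F y`, `y` a string
  of `L` bits, there is a symmetric verifier which accepts some state with probability `1`, but each
  `F y` with probability at most `(3/2) (L + 3) / M`.

So if `D` and `c` are such that `M` is polynomially bounded (for instance constant `c` and
polynomially bounded `D`), quantum witnesses are not more powerful than classical ones for symmetric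
verifiers, soundness unchanged and completeness multiplied by `1 - ε`; and if `M` is
superpolynomial, this cannot be achieved by any fixed assignment of states to classical strings of
polynomial length.

Idea: the eigenspace of `E` to the largest eigenvalue is invariant under the exchanges. Choose a
largest matching such that some vector `v ≠ 0` of this space is antisymmetric in all matched pairs.
If the exchange `R` of two unmatched qubits of the same type did not fix `v`, then `v - R v` would
contradict the choice. For the last part one takes the projection onto a suitable symmetric state.
-/

set_option autoImplicit false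

open scoped ComplexOrder Matrix
open Pool.Agent.W996.MW Pool.Agent.TH269.SV

/-- For symmetric verifiers (qubits of `c` types, additional register of dimension `D`,
`M = D ∏ (n_t + 1)`): an optimal witness consisting of singlets and a state which is symmetric in
the unmatched qubits of each type; classical witnesses of `L` bits, `L ≥ 3 M log₂ (7 M / ε)`; and
the lower bound `L + 3 ≥ (2/3) M δ` if these are to be accepted with probability `≥ δ`. -/
theorem Pool.Agent.Results.MP_36f78e_lc.SymmetricVerifiers.result (D n c : ℕ) (hD : 1 ≤ D)
    (τ : Fin n → Fin c) :
    (∀ E : Matrix (St D n) (St D n) ℂ, IsEffect E → Symm τ E →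
      ∃ μ g, Matching τ μ ∧ normSq (form τ μ g) = 1 ∧
        ∀ φ : St D n → ℂ, normSq φ = 1 → accept E φ ≤ accept E (form τ μ g)) ∧
    (∀ ε : ℝ, 0 < ε → ε < 1 → ∀ L : ℕ,
      3 * dimT D τ * Real.logb 2 (7 * dimT D τ / ε) ≤ L →
      ∃ F : (Fin L → Bool) → St D n → ℂ,
        (∀ y, normSq (F y) = 1 ∧ ∃ μ g, Matching τ μ ∧ F y = form τ μ g) ∧
        ∀ E : Matrix (St D n) (St D n) ℂ, IsEffect E → Symm τ E →
          ∀ φ : St D n → ℂ, normSq φ = 1 → ∃ y, (1 - ε) * accept E φ ≤ accept E (F y)) ∧
    (∀ (L : ℕ) (F : (Fin L → Bool) → St D n → ℂ), (∀ y, normSq (F y) = 1) →
      ∃ E : Matrix (St D n) (St D n) ℂ, IsEffect E ∧ Symm τ E ∧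
        (∃ ψ : St D n → ℂ, normSq ψ = 1 ∧ accept E ψ = 1) ∧
        ∀ y, accept E (F y) ≤ 3 / 2 * (L + 3) / dimT D τ) :=
  ⟨fun E hE hS => partA hD τ E hE hS, fun _ hε hε1 L hL => partB hD τ hε hε1 L hL,
    fun L F hF => partC hD τ L F hF⟩
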