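import Mathlib
import Pool.Agent.TH269.GS.Mult

/-!
# Verifiers with symmetries: the length of classical witnesses is the multiplicity

A QMA verifier on a fixed input is its acceptance operator `E`, `0 ≤ E ≤ 1` (`IsEffect`), on the
space with the basis `ι` (`N` elements; `log₂ N` is the number of witness qubits); it accepts the
unit state `φ` with probability `accept E φ = ⟨φ|E|φ⟩` (operator form). Let `𝒢` be an ARBITRARY set
of matrices (the symmetries, for instance the unitary matrices of a group representation or
conserved quantities), and consider the verifiers whose acceptance operator commutes with all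
elements of `𝒢` (`Commutes`). Let `m` be the largest number such that `m × m` matrix units commute
with `𝒢` (`HasUnits`); in the language of representations it is the largest multiplicity of an
irreducible representation of the star algebra generated by `𝒢`.

* **Optimal witnesses.** There are `N` subspaces of dimension at most `m`, which depend only on `𝒢`,
  such that every verifier which commutes with `𝒢` has an optimal witness in one of them.
* **Classical witnesses.** Let `0 < ε < 1` and `L ≥ log₂ N + 2 m log₂ (7 m / ε)`. There are states
  `F y`, `y` a string of `L` bits, such that for every verifier which commutes with `𝒢` some `F y` is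
  accepted with probability at least `1 - ε` times the maximum over all states.
* **They cannot be shorter** (up to logarithms and `log₂ N`). For every `L` and all states `F y`, `y`
  a string of `L` bits, there is a verifier which commutes with `𝒢` and accepts some state with
  probability `1`, but each `F y` with probability at most `(3/2) (L + log₂ N + 3) / m`.

So a set of symmetries allows the replacement of quantum witnesses by classical ones of polynomial
length (information theoretically, for a fixed assignment of states to strings) if and only if its
multiplicities are polynomially bounded. (For the exchanges of `n` qudits of constant dimension the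
multiplicities are polynomially bounded, see `Pool.Agent.TH269.GS.no_units` and `qudits`.)

Idea: let `w_j` be a basis whose members lie in minimal invariant subspaces, `U_j` the space of all
`C w_j`, `C` in the commutant. The eigenspace of `E` to the largest eigenvalue is invariant, so the
projection onto it is in the commutant, and it does not vanish at some `w_j`. By Schur's lemma an
orthonormal family of `k` vectors in `U_j` yields `k × k` matrix units in the commutant. For the
lower bound one uses the projections `∑ ψ_i conj(ψ_j) e_ij` for suitable unit vectors `ψ`.
-/

set_option autoImplicit false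

open scoped ComplexOrder Matrix
open Pool.Agent.W996.MW Pool.Agent.TH269.GS

/-- For every set `𝒢` of matrices there is a number `m` (the largest number such that `m × m` matrix
units commute with `𝒢`) which is, up to logarithms and `log₂ N`, the length of classical witnesses
for the verifiers which commute with `𝒢`. -/
theorem Pool.Agent.Results.MP_36f78e_lc.SymmetryMultiplicity.result (ι : Type) [Fintype ι]
    [DecidableEq ι] [Nonempty ι] (𝒢 : Set (Matrix ι ι ℂ)) :
    ∃ m : ℕ, 1 ≤ m ∧ (∀ k, HasUnits 𝒢 k ↔ k ≤ m) ∧
      (∃ U : ι → Submodule ℂ (ι → ℂ), (∀ j, Module.finrank ℂ (U j) ≤ m) ∧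
        ∀ E : Matrix ι ι ℂ, IsEffect E → Commutes 𝒢 E →
          ∃ j, ∃ ψ ∈ U j, normSq ψ = 1 ∧
            ∀ φ : ι → ℂ, normSq φ = 1 → accept E φ ≤ accept E ψ) ∧
      (∀ ε : ℝ, 0 < ε → ε < 1 → ∀ L : ℕ,
        Real.logb 2 (Fintype.card ι) + 2 * m * Real.logb 2 (7 * m / ε) ≤ L →
        ∃ F : (Fin L → Bool) → ι → ℂ, (∀ y, normSq (F y) = 1) ∧
          ∀ E : Matrix ι ι ℂ, IsEffect E → Commutes 𝒢 E → ∀ φ : ι → ℂ, normSq φ = 1 →
            ∃ y, (1 - ε) * accept E φ ≤ accept E (F y)) ∧
      (∀ (L : ℕ) (F : (Fin L → Bool) → ι → ℂ), (∀ y, normSq (F y) = 1) →
        ∃ E : Matrix ι ι ℂ, IsEffect E ∧ Commutes 𝒢 E ∧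
          (∃ ψ : ι → ℂ, normSq ψ = 1 ∧ accept E ψ = 1) ∧
          ∀ y, accept E (F y) ≤ 3 / 2 * (L + Real.logb 2 (Fintype.card ι) + 3) / m) := by
  obtain ⟨m, hm1, hm⟩ := exists_mult 𝒢
  have h1 : ¬ HasUnits 𝒢 (m + 1) := fun h => by
    have := (hm (m + 1)).1 h
    omega
  exact ⟨m, hm1, hm, catalogue h1, fun ε hε hε1 L hL => upper' h1 hε hε1 L hL,
    fun L F hF => lower hm1 ((hm m).2 le_rfl) L F hF⟩
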